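import Pool.Agent.Helper61_GLE.THE
import Pool.Agent.GLE.StmtsA

/-!
# GLE, row PRG: pairing of a test function with a smeared point of the Mandelbrot set
-/

set_option autoImplicit false

namespace Pool.Agent.GLE.H61

open Polynomial MeasureTheory Filter Topology Pool.Agent.GLE

theorem contDiff_aeval (P : ℝ[X]) (n : WithTop ℕ∞) : ContDiff ℝ n (fun z : ℂ => aeval z P) := by
  induction P using Polynomial.induction_on' with
  | add p q hp hq => simp only [map_add]; exact hp.add hq
  | monomial k a =>
    simp only [aeval_monomial]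
    exact contDiff_const.mul (contDiff_id.pow k)

theorem differentiable_aeval (P : ℝ[X]) : Differentiable ℂ (fun z : ℂ => aeval z P) := by
  induction P using Polynomial.induction_on' with
  | add p q hp hq => simp only [map_add]; exact hp.add hq
  | monomial k a =>
    simp only [aeval_monomial]
    exact (differentiable_const _).mul (differentiable_id.pow k)

theorem circleAverage_re (P : ℝ[X]) (a : ℂ) (ε : ℝ) :
    Real.circleAverage (fun z => (aeval z P).re) a ε = (aeval a P).re := by
  have h1 : Real.circleAverage (fun z : ℂ => aeval z P) a ε = aeval a P :=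
    (differentiable_aeval P).diffContOnCl.circleAverage
  have h2 : CircleIntegrable (fun z : ℂ => aeval z P) a ε :=
    (contDiff_aeval P 1).continuous.continuousOn.circleIntegrable'
  have h3 := Complex.reCLM.circleAverage_comp_comm h2
  have e : (Complex.reCLM ∘ fun z : ℂ => aeval z P) = fun z : ℂ => (aeval z P).re := rfl
  rw [e, h1] at h3
  exact h3

theorem prg (rad : RadStmt) (nbh : NbhStmt) : PrgStmt := by
  intro m P hm
  obtain ⟨C, -, hT⟩ := the_
  obtain ⟨c1, c2, c3, -, -, -⟩ := hT m hm
  have hφ : ContDiff ℝ 1 (fun z : ℂ => (aeval z P).re * Th m z) :=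
    (Complex.reCLM.contDiff.comp (contDiff_aeval P 1)).mul c1
  have hc : HasCompactSupport (fun z : ℂ => (aeval z P).re * Th m z) := c2.mul_left
  obtain ⟨-, -, h3, h4⟩ := rad _ hφ hc
  refine ⟨h3, fun a ε ha hε0 hε => ?_⟩
  obtain ⟨h5, h6⟩ := h4 a ε hε0.le
  refine ⟨h5, ?_⟩
  rw [h6, ← circleAverage_re P a ε]
  congr 1
  apply Real.circleAverage_congr_sphere
  intro z hz
  have hz' : ‖z - a‖ = ε := by
    have := mem_sphere_iff_norm.1 hz
    rwa [abs_of_pos hε0] at this
  have h7 : ‖av m (a + (z - a)) - av m a‖ ≤ 1 := nbh m a (z - a) ha (by rw [hz']; exact hε)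
  rw [add_sub_cancel] at h7
  have h8 : ‖av m z‖ ≤ 4 := by
    have h9 := ha m
    have : ‖av m z‖ ≤ ‖av m z - av m a‖ + ‖av m a‖ := by
      have := norm_add_le (av m z - av m a) (av m a)
      rwa [sub_add_cancel] at this
    linarith
  simp only [c3 z h8, mul_one]

end Pool.Agent.GLE.H61
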