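import Pool.Agent.GLE.StmtsC

/-!
# GLE, row THE: the cut off functions
-/

set_option autoImplicit false

namespace Pool.Agent.GLE.H61

open Polynomial MeasureTheory Filter Topology Pool.Agent.GLE

theorem differentiable_av (m : ℕ) : Differentiable ℂ (fun z : ℂ => av m z) := by
  induction m with
  | zero => simp only [av]; exact differentiable_const 0
  | succ m ih => simp only [av]; exact (ih.pow 2).add differentiable_id

theorem contDiff_av (m : ℕ) (n : WithTop ℕ∞) : ContDiff ℝ n (fun z : ℂ => av m z) := by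
  induction m with
  | zero => simp only [av]; exact contDiff_const
  | succ m ih => simp only [av]; exact (ih.pow 2).add contDiff_id

theorem norm_le_av {z : ℂ} (hz : 2 ≤ ‖z‖) (m : ℕ) : ‖z‖ ≤ ‖av (m + 1) z‖ := by
  induction m with
  | zero => simp [av]
  | succ m ih =>
    have h1 : ‖(av (m + 1) z) ^ 2‖ - ‖z‖ ≤ ‖(av (m + 1) z) ^ 2 + z‖ := by
      have := norm_sub_le ((av (m + 1) z) ^ 2 + z) z
      rw [add_sub_cancel_right] at this
      linarith
    have h2 : ‖z‖ ^ 2 ≤ ‖(av (m + 1) z) ^ 2‖ := by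
      rw [norm_pow]
      exact pow_le_pow_left₀ (norm_nonneg _) ih 2
    have h3 : av (m + 1 + 1) z = (av (m + 1) z) ^ 2 + z := rfl
    rw [h3]
    nlinarith [norm_nonneg z]

theorem deriv_tr_neg {x : ℝ} (hx : x < 0) : deriv Real.smoothTransition x = 0 := by
  have h : Real.smoothTransition =ᶠ[𝓝 x] fun _ => (0 : ℝ) := by
    filter_upwards [gt_mem_nhds hx] with y hy
    exact Real.smoothTransition.zero_of_nonpos hy.le
  rw [h.deriv_eq]; simp

theorem deriv_tr_big {x : ℝ} (hx : 1 < x) : deriv Real.smoothTransition x = 0 := by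
  have h : Real.smoothTransition =ᶠ[𝓝 x] fun _ => (1 : ℝ) := by
    filter_upwards [lt_mem_nhds hx] with y hy
    exact Real.smoothTransition.one_of_one_le hy.le
  rw [h.deriv_eq]; simp

theorem exists_bound : ∃ M : ℝ, 0 ≤ M ∧ ∀ x, |deriv Real.smoothTransition x| ≤ M := by
  have hc : Continuous (deriv Real.smoothTransition) :=
    (Real.smoothTransition.contDiff (n := 1)).continuous_deriv (by simp)
  obtain ⟨M, hM⟩ := isCompact_Icc.exists_bound_of_continuousOn (s := Set.Icc (0 : ℝ) 1) hc.continuousOn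
  refine ⟨max M 0, le_max_right _ _, fun x => ?_⟩
  rcases lt_or_ge x 0 with h | h
  · rw [deriv_tr_neg h]; simp
  · rcases lt_or_ge 1 x with h' | h'
    · rw [deriv_tr_big h']; simp
    · exact (hM x ⟨h, h'⟩).trans (le_max_left _ _)

/-- derivative of the squared norm -/
noncomputable def dn (m : ℕ) (z : ℂ) : ℂ →L[ℝ] ℝ :=
  2 • (innerSL ℝ (av m z)).comp (deriv (fun z : ℂ => av m z) z • (1 : ℂ →L[ℝ] ℂ))

theorem hasFDerivAt_Th (m : ℕ) (z : ℂ) :
    HasFDerivAt (Th m) (deriv Real.smoothTransition ((256 - ‖av m z‖ ^ 2) / 240) •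
      ((240 : ℝ)⁻¹ • (-dn m z))) z := by
  have h1 : HasFDerivAt (fun z : ℂ => av m z) (deriv (fun z : ℂ => av m z) z • (1 : ℂ →L[ℝ] ℂ)) z :=
    ((differentiable_av m) z).hasDerivAt.complexToReal_fderiv
  have h2 := h1.norm_sq
  have h3 : HasFDerivAt (fun z : ℂ => (256 - ‖av m z‖ ^ 2) / 240)
      ((240 : ℝ)⁻¹ • (-dn m z)) z := by
    have h4 := (h2.const_sub 256).const_mul (240 : ℝ)⁻¹
    have e : (fun z : ℂ => (256 - ‖av m z‖ ^ 2) / 240) =
        fun z : ℂ => (240 : ℝ)⁻¹ * (256 - ‖av m z‖ ^ 2) := by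
      funext z; rw [div_eq_inv_mul]
    rw [e]
    exact h4
  have h5 : HasDerivAt Real.smoothTransition
      (deriv Real.smoothTransition ((256 - ‖av m z‖ ^ 2) / 240)) ((256 - ‖av m z‖ ^ 2) / 240) :=
    ((Real.smoothTransition.contDiff (n := 1)).differentiable (by simp) _).hasDerivAt
  exact h5.comp_hasFDerivAt z h3

theorem fderiv_Th_apply (m : ℕ) (z w : ℂ) : fderiv ℝ (Th m) z w =
    deriv Real.smoothTransition ((256 - ‖av m z‖ ^ 2) / 240) *
      ((240 : ℝ)⁻¹ * (-(2 * inner ℝ (av m z) (deriv (fun z : ℂ => av m z) z * w)))) := by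
  rw [(hasFDerivAt_Th m z).fderiv]
  simp [dn, two_smul]
  ring

theorem fderiv_Th_bound {M : ℝ} (hM : ∀ x, |deriv Real.smoothTransition x| ≤ M) (m : ℕ) (z w : ℂ)
    (hw : ‖w‖ = 1) : |fderiv ℝ (Th m) z w| ≤ M * (2 / 15) * ‖deriv (fun z : ℂ => av m z) z‖ := by
  have hM0 : 0 ≤ M := (abs_nonneg _).trans (hM 0)
  rw [fderiv_Th_apply]
  by_cases h : 16 < ‖av m z‖
  · have h1 : (256 - ‖av m z‖ ^ 2) / 240 < 0 := by
      apply div_neg_of_neg_of_pos _ (by norm_num)
      nlinarith
    rw [deriv_tr_neg h1, zero_mul, abs_zero]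
    positivity
  · have h' : ‖av m z‖ ≤ 16 := not_lt.1 h
    rw [abs_mul, abs_mul, abs_neg, abs_mul]
    have h2 : |inner ℝ (av m z) (deriv (fun z : ℂ => av m z) z * w)| ≤
        16 * ‖deriv (fun z : ℂ => av m z) z‖ := by
      refine (abs_real_inner_le_norm _ _).trans ?_
      rw [norm_mul, hw, mul_one]
      exact mul_le_mul_of_nonneg_right h' (norm_nonneg _)
    have h3 : |(240 : ℝ)⁻¹| = 240⁻¹ := abs_of_pos (by norm_num)
    have h4 : |(2 : ℝ)| = 2 := abs_of_pos (by norm_num)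
    rw [h3, h4]
    calc |deriv Real.smoothTransition ((256 - ‖av m z‖ ^ 2) / 240)| *
        (240⁻¹ * (2 * |inner ℝ (av m z) (deriv (fun z : ℂ => av m z) z * w)|))
        ≤ M * (240⁻¹ * (2 * (16 * ‖deriv (fun z : ℂ => av m z) z‖))) := by
          apply mul_le_mul (hM _) _ (by positivity) hM0
          apply mul_le_mul_of_nonneg_left _ (by norm_num)
          linarith
      _ = M * (2 / 15) * ‖deriv (fun z : ℂ => av m z) z‖ := by ring

theorem the_ : TheStmt := by
  obtain ⟨M, hM0, hM⟩ := exists_bound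
  refine ⟨2 * (M * (2 / 15)) ^ 2 + 1, by positivity, fun m hm => ⟨?_, ?_, ?_, ?_, ?_, ?_⟩⟩
  · have h1 : ContDiff ℝ 1 (fun z : ℂ => (256 - ‖av m z‖ ^ 2) / 240) :=
      (contDiff_const.sub ((contDiff_av m 1).norm_sq ℝ)).div_const 240
    exact Real.smoothTransition.contDiff.comp h1
  · apply HasCompactSupport.intro (isCompact_closedBall (0 : ℂ) 16)
    intro z hz
    have h1 : 16 < ‖z‖ := by
      simpa using hz
    obtain ⟨m', rfl⟩ : ∃ m', m = m' + 1 := ⟨m - 1, by omega⟩
    have h2 := norm_le_av (z := z) (by linarith) m'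
    apply Real.smoothTransition.zero_of_nonpos
    apply div_nonpos_of_nonpos_of_nonneg _ (by norm_num)
    nlinarith
  · intro z hz
    apply Real.smoothTransition.one_of_one_le
    rw [le_div_iff₀ (by norm_num)]
    nlinarith [norm_nonneg (av m z)]
  · intro z hz
    apply Real.smoothTransition.zero_of_nonpos
    apply div_nonpos_of_nonpos_of_nonneg _ (by norm_num)
    nlinarith
  · intro z
    have h1 := fderiv_Th_bound hM m z 1 (by simp)
    have h2 := fderiv_Th_bound hM m z Complex.I (by simp)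
    have e : deriv (av m) z = deriv (fun z : ℂ => av m z) z := rfl
    rw [e]
    set a := fderiv ℝ (Th m) z 1 with ha
    set b := fderiv ℝ (Th m) z Complex.I with hb
    set d := ‖deriv (fun z : ℂ => av m z) z‖ with hd
    have h3 : ‖grad (Th m) z‖ ^ 2 = a ^ 2 + b ^ 2 := by
      rw [Complex.sq_norm, Complex.normSq_apply]
      simp only [grad]
      ring
    rw [h3]
    have h4 : a ^ 2 ≤ (M * (2 / 15) * d) ^ 2 := by
      rw [← sq_abs a]; exact pow_le_pow_left₀ (abs_nonneg _) h1 2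
    have h5 : b ^ 2 ≤ (M * (2 / 15) * d) ^ 2 := by
      rw [← sq_abs b]; exact pow_le_pow_left₀ (abs_nonneg _) h2 2
    nlinarith [sq_nonneg d]
  · intro z hz
    have h1 : (256 - ‖av m z‖ ^ 2) / 240 < 0 := by
      apply div_neg_of_neg_of_pos _ (by norm_num)
      nlinarith
    unfold grad
    rw [fderiv_Th_apply, fderiv_Th_apply, deriv_tr_neg h1]
    simp
    rfl

end Pool.Agent.GLE.H61
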